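import Pool.Agent.LibEnt73.Main

/-!
MP_572ff6_an, Q2: the order of the entropy numbers of the classes `\bar W^{a,b}_∞` in `L_p`, for
every `d ≥ 3`, `1 ≤ p < ∞`, real `b` and `a > max (1/2) (1 - 1/p)`.
-/

namespace Pool.Agent.Results.MP_572ff6_an.EntropyWbar

open Pool.Agent.LibEnt73

theorem result (d : ℕ) (hd : 3 ≤ d) (p : ℝ) (hp : 1 ≤ p) (a b : ℝ)
    (ha : max (1 / 2) (1 - 1 / p) < a) :
    ∃ c C : ℝ, 0 < c ∧ 0 < C ∧ ∀ k : ℕ, 2 ≤ k →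
      c * ((k : ℝ) ^ (-a) * (Real.log k) ^ (((d : ℝ) - 1) * (a + b) - 1 / 2))
        ≤ entropyNumber (ENNReal.ofReal p) (WbC d a b) k ∧
      entropyNumber (ENNReal.ofReal p) (WbC d a b) k
        ≤ C * ((k : ℝ) ^ (-a) * (Real.log k) ^ (((d : ℝ) - 1) * (a + b) - 1 / 2)) :=
  (main d hd p hp a b ha).2

end Pool.Agent.Results.MP_572ff6_an.EntropyWbar
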